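import Pool.Agent.QSX.StmtsB

/-!
# Squad QSX, row BRE: the brackets of the basis `e` (helper16)
-/

set_option autoImplicit false

namespace Pool.Agent.QSX.H16

open Matrix Finset

theorem bre (hcof : CofStmt) : BreStmt := by
  intro X hX l l' hll'
  have he : ∀ t, SU (hX.e t) := fun t => by
    apply X.su
    rw [← hX.span_e]
    exact Submodule.subset_span ⟨t, rfl⟩
  exact hcof ℝ X.m hX.ι (hX.e l) (hX.e l') hX.e (hX.L l l') (he l) (he l')
    (fun t _ => he t.1) (fun t ht => ⟨(hX.L_rt l l' t ht).1, (hX.L_rt l l' t ht).2.1⟩)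
    (fun x y => hX.com l l' hll' x y)

end Pool.Agent.QSX.H16
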